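import Mathlib

/-!
# Cubes in large families of functions
-/

open Finset

namespace Pool.Agent.H456.Pack

variable {κ Λ : Type*}

/-- `X` contains all functions on `I` with `i ↦ f i` or `i ↦ g i`, where `f i ≠ g i`. -/
def Cube (X : Finset (κ → Λ)) (I : Finset κ) (f g : κ → Λ) : Prop :=
  (∀ i ∈ I, f i ≠ g i) ∧ ∀ S ⊆ I, ∃ x ∈ X, (∀ i ∈ S, x i = f i) ∧ ∀ i ∈ I, i ∉ S → x i = g i

/-- A family of functions, determined by their values on `A`, with more than
`(|Λ|² (|A| + 1)) ^ N` members contains a cube of dimension `N`. -/
theorem exists_cube [Fintype Λ] [Nonempty Λ] (A : Finset κ) (N : ℕ) (X : Finset (κ → Λ))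
    (hX : ∀ x ∈ X, ∀ y ∈ X, (∀ i ∈ A, x i = y i) → x = y)
    (hc : (Fintype.card Λ ^ 2 * (#A + 1)) ^ N < #X) :
    ∃ I ⊆ A, #I = N ∧ ∃ f g, Cube X I f g := by
  classical
  induction A using Finset.induction generalizing N X with
  | empty =>
    exfalso
    have h1 : #X ≤ 1 := card_le_one.2 fun x hx y hy => hX x hx y hy (by simp)
    have h2 : 0 < (Fintype.card Λ ^ 2 * (#(∅ : Finset κ) + 1)) ^ N := by
      apply Nat.pow_pos
      apply Nat.mul_pos
      · exact Nat.pow_pos Fintype.card_pos
      · omega
    omega
  | insert a A' ha ih =>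
    cases N with
    | zero =>
      rw [pow_zero] at hc
      obtain ⟨x, hx⟩ : X.Nonempty := card_pos.1 (by omega)
      refine ⟨∅, empty_subset _, rfl, x, x, by simp, ?_⟩
      intro S hS
      rw [subset_empty] at hS
      subst hS
      exact ⟨x, hx, by simp, by simp⟩
    | succ N =>
      set φ : (κ → Λ) → (A' → Λ) := fun x i => x i with hφ
      obtain ⟨X₁, hX₁, hinj, himg⟩ := Finset.exists_subset_injOn_image_eq_of_surjOn (f := φ) X
        (X.image φ) (by rw [coe_image]; exact Set.surjOn_image _ _)
      have hX₁' : X₁ ⊆ X := by exact_mod_cast hX₁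
      have hrep : ∀ x : κ → Λ, ∃ y : κ → Λ, x ∈ X → y ∈ X₁ ∧ ∀ i ∈ A', y i = x i := by
        intro x
        by_cases hx : x ∈ X
        · have : φ x ∈ X₁.image φ := by rw [himg]; exact mem_image_of_mem _ hx
          obtain ⟨y, hy, hyx⟩ := mem_image.1 this
          exact ⟨y, fun _ => ⟨hy, fun i hi => congrFun hyx ⟨i, hi⟩⟩⟩
        · exact ⟨x, fun h => absurd h hx⟩
      choose r hr using hrep
      rw [card_insert_of_notMem ha] at hc
      set q := Fintype.card Λ with hq
      by_cases hbig : (q ^ 2 * (#A' + 1)) ^ (N + 1) < #X₁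
      · obtain ⟨I, hI, hIc, f, g, hfg, hS⟩ := ih (N + 1) X₁ (by
          intro x hx y hy hxy
          exact hinj hx hy (funext fun i => hxy i i.2)) hbig
        refine ⟨I, hI.trans (subset_insert _ _), hIc, f, g, hfg, fun S hSI => ?_⟩
        obtain ⟨x, hx, hx'⟩ := hS S hSI
        exact ⟨x, hX₁' hx, hx'⟩
      · push Not at hbig
        have hcard : #(X \ X₁) = #X - #X₁ := card_sdiff_of_subset hX₁'
        have hle : #X₁ ≤ #X := card_le_card hX₁'
        have hnum : (q ^ 2 * (#A' + 1)) ^ (N + 1) + q ^ 2 * (q ^ 2 * (#A' + 1)) ^ N ≤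
            (q ^ 2 * (#A' + 1 + 1)) ^ (N + 1) := by
          have h1 : (q ^ 2 * (#A' + 1)) ^ N ≤ (q ^ 2 * (#A' + 1 + 1)) ^ N := by
            apply Nat.pow_le_pow_left
            apply Nat.mul_le_mul_left
            omega
          calc (q ^ 2 * (#A' + 1)) ^ (N + 1) + q ^ 2 * (q ^ 2 * (#A' + 1)) ^ N
              = (q ^ 2 * (#A' + 1)) ^ N * (q ^ 2 * (#A' + 1 + 1)) := by ring
            _ ≤ (q ^ 2 * (#A' + 1 + 1)) ^ N * (q ^ 2 * (#A' + 1 + 1)) :=
                Nat.mul_le_mul_right _ h1
            _ = _ := by ring
        have hgt : #(univ : Finset (Λ × Λ)) * (q ^ 2 * (#A' + 1)) ^ N < #(X \ X₁) := by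
          rw [card_univ, Fintype.card_prod, ← hq, hcard, ← sq]
          omega
        obtain ⟨⟨α, β⟩, -, hαβ⟩ := exists_lt_card_fiber_of_mul_lt_card_of_maps_to
          (f := fun x : κ → Λ => (x a, r x a)) (s := X \ X₁) (t := (univ : Finset (Λ × Λ)))
          (fun x _ => mem_univ _) hgt
        set Y := (X \ X₁).filter (fun x => (x a, r x a) = (α, β)) with hY
        have hYX : ∀ x ∈ Y, x ∈ X ∧ x ∉ X₁ ∧ x a = α ∧ r x a = β := by
          intro x hx
          rw [hY, mem_filter, mem_sdiff, Prod.mk.injEq] at hx
          exact ⟨hx.1.1, hx.1.2, hx.2.1, hx.2.2⟩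
        obtain ⟨I, hI, hIc, f, g, hfg, hS⟩ := ih N Y (by
          intro x hx y hy hxy
          apply hX x (hYX x hx).1 y (hYX y hy).1
          intro i hi
          rcases mem_insert.1 hi with rfl | hi
          · rw [(hYX x hx).2.2.1, (hYX y hy).2.2.1]
          · exact hxy i hi) hαβ
        have haI : a ∉ I := fun h => ha (hI h)
        refine ⟨insert a I, insert_subset_insert _ hI, by rw [card_insert_of_notMem haI, hIc],
          Function.update f a α, Function.update g a β, ?_, ?_⟩
        · intro i hi
          rcases mem_insert.1 hi with rfl | hi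
          · rw [Function.update_self, Function.update_self]
            intro hαβ'
            obtain ⟨x, hx⟩ : Y.Nonempty := card_pos.1 (by omega)
            obtain ⟨h1, h2, h3, h4⟩ := hYX x hx
            have h5 := hr x h1
            apply h2
            rw [hX x h1 (r x) (hX₁' h5.1) (by
              intro j hj
              rcases mem_insert.1 hj with rfl | hj
              · rw [h3, h4, hαβ']
              · exact (h5.2 j hj).symm)]
            exact h5.1
          · have hne : i ≠ a := fun h => haI (h ▸ hi)
            rw [Function.update_of_ne hne, Function.update_of_ne hne]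
            exact hfg i hi
        · intro S hSI
          by_cases haS : a ∈ S
          · obtain ⟨x, hx, hx1, hx2⟩ := hS (S.erase a) (by
              intro i hi
              rw [mem_erase] at hi
              rcases mem_insert.1 (hSI hi.2) with h | h
              · exact absurd h hi.1
              · exact h)
            refine ⟨x, (hYX x hx).1, ?_, ?_⟩
            · intro i hi
              by_cases hia : i = a
              · rw [hia, Function.update_self]
                exact (hYX x hx).2.2.1
              · rw [Function.update_of_ne hia]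
                exact hx1 i (mem_erase.2 ⟨hia, hi⟩)
            · intro i hi hiS
              have hia : i ≠ a := fun h => hiS (h ▸ haS)
              rw [Function.update_of_ne hia]
              refine hx2 i ?_ (fun h => hiS (mem_erase.1 h).2)
              rcases mem_insert.1 hi with h | h
              · exact absurd h hia
              · exact h
          · have hSI' : S ⊆ I := by
              intro i hi
              rcases mem_insert.1 (hSI hi) with h | h
              · exact absurd (h ▸ hi) haS
              · exact h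
            obtain ⟨x, hx, hx1, hx2⟩ := hS S hSI'
            have h5 := hr x (hYX x hx).1
            refine ⟨r x, hX₁' h5.1, ?_, ?_⟩
            · intro i hi
              have hia : i ≠ a := fun h => haS (h ▸ hi)
              rw [Function.update_of_ne hia, h5.2 i (hI (hSI' hi))]
              exact hx1 i hi
            · intro i hi hiS
              rcases mem_insert.1 hi with rfl | hi
              · rw [Function.update_self]
                exact (hYX x hx).2.2.2
              · have hia : i ≠ a := fun h => haI (h ▸ hi)
                rw [Function.update_of_ne hia, h5.2 i (hI hi)]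
                exact hx2 i hi hiS

/-- A cube whose two values do not depend on the coordinate. -/
theorem exists_const_cube [Fintype Λ] {X : Finset (κ → Λ)} {I : Finset κ} {f g : κ → Λ}
    (h : Cube X I f g) {N : ℕ} (hN : Fintype.card Λ ^ 2 * N < #I) :
    ∃ (α β : Λ) (I' : Finset κ), I' ⊆ I ∧ N < #I' ∧ Cube X I' (fun _ => α) (fun _ => β) := by
  classical
  obtain ⟨⟨α, β⟩, -, hαβ⟩ := exists_lt_card_fiber_of_mul_lt_card_of_maps_to
    (f := fun i : κ => (f i, g i)) (s := I) (t := (univ : Finset (Λ × Λ))) (n := N)
    (fun x _ => mem_univ _) (by rwa [card_univ, Fintype.card_prod, ← sq])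
  refine ⟨α, β, I.filter (fun i => (f i, g i) = (α, β)), filter_subset _ _, hαβ, ?_, ?_⟩
  · intro i hi
    rw [mem_filter, Prod.mk.injEq] at hi
    rw [← hi.2.1, ← hi.2.2]
    exact h.1 i hi.1
  · intro S hS
    obtain ⟨x, hx, h1, h2⟩ := h.2 S (hS.trans (filter_subset _ _))
    refine ⟨x, hx, ?_, ?_⟩
    · intro i hi
      have := hS hi
      rw [mem_filter, Prod.mk.injEq] at this
      rw [h1 i hi, this.2.1]
    · intro i hi hiS
      rw [mem_filter, Prod.mk.injEq] at hi
      rw [h2 i hi.1 hiS, hi.2.2]

end Pool.Agent.H456.Pack
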