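import Pool.Agent.H456.Pack.Core

/-!
# The packing lemma for functions with values in a finite set
-/

open Finset

namespace Pool.Agent.H456.Pack

variable {ι κ Λ : Type*} [DecidableEq κ] [DecidableEq Λ] [Fintype κ] [Fintype Λ]

/-- The graph of a function, as a finite set of pairs. -/
def gr (x : κ → Λ) : Finset (κ × Λ) := {p | x p.1 = p.2}

omit [DecidableEq κ] in
lemma mem_gr {x : κ → Λ} {p : κ × Λ} : p ∈ gr x ↔ x p.1 = p.2 := by
  simp [gr]

/-- The number of patterns of a finite set `R` of functions on a set `J`. -/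
def pat (R : Finset ι) (x : ι → κ → Λ) (J : Finset κ) : Finset (J → Λ) :=
  R.image (fun b => fun j : J => x b j)

lemma card_trace_le (R : Finset ι) (x : ι → κ → Λ) (J : Finset (κ × Λ)) :
    #((R.image fun b => gr (x b)).image (· ∩ J)) ≤ #(pat R x (J.image Prod.fst)) := by
  have : (R.image fun b => gr (x b)).image (· ∩ J) =
      (pat R x (J.image Prod.fst)).image (fun p => J.attach.filter (fun q =>
        p ⟨q.1.1, mem_image_of_mem _ q.2⟩ = q.1.2) |>.image Subtype.val) := by
    rw [pat, image_image, image_image]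
    apply image_congr
    intro b _
    ext q
    simp only [Function.comp, mem_inter, mem_gr, mem_image, mem_filter, mem_attach, true_and,
      Subtype.exists, exists_and_right, exists_eq_right]
    exact ⟨fun h => ⟨h.2, h.1⟩, fun ⟨h1, h2⟩ => ⟨h2, h1⟩⟩
  rw [this]
  exact card_image_le

lemma card_symmDiff_gr (x y : κ → Λ) : #{e | x e ≠ y e} ≤ #(symmDiff (gr x) (gr y)) := by
  apply card_le_card_of_injOn (fun e => (e, x e))
  · intro e he
    simp only [coe_filter, mem_univ, true_and, Set.mem_ofPred_eq] at he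
    simp only [coe_symmDiff, Set.mem_symmDiff, mem_coe, mem_gr]
    exact Or.inl ⟨trivial, fun h => he h.symm⟩
  · intro e _ e' _ h
    exact (Prod.mk.inj h).1

/-- **The packing lemma for functions.** -/
theorem packing_fun (R : Finset ι) (x : ι → κ → Λ) (g : ℕ → ℕ) (hg : Monotone g)
    (hpat : ∀ J : Finset κ, #(pat R x J) ≤ g #J) (D : ℕ) (hD : g (D + 1) < 2 ^ (D + 1))
    (k : ℕ) (hk : 0 < k)
    (hsep : ∀ b ∈ R, ∀ b' ∈ R, b ≠ b' → k ≤ #{e | x b e ≠ x b' e}) (s : ℕ)
    (hs : s + 1 ≤ Fintype.card κ * Fintype.card Λ)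
    (h : 4 * D * (Fintype.card κ * Fintype.card Λ) ≤ (s + 1) * k) : #R ≤ 2 * g s := by
  set 𝒜 := R.image fun b => gr (x b) with h𝒜
  have hinj : Set.InjOn (fun b => gr (x b)) (R : Set ι) := by
    intro b hb b' hb' hbb
    by_contra hne
    have h1 := hsep b hb b' hb' hne
    have h2 := card_symmDiff_gr (x b) (x b')
    have h3 : gr (x b) = gr (x b') := hbb
    rw [h3, symmDiff_self] at h2
    simp only [bot_eq_empty, card_empty] at h2
    omega
  have hcard : #𝒜 = #R := card_image_of_injOn hinj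
  obtain ⟨J, hJ, hle⟩ := packing 𝒜 D k s (by
      intro T hT
      by_contra hlt
      push Not at hlt
      obtain ⟨T', hT', hc⟩ := exists_subset_card_eq (show D + 1 ≤ #T by omega)
      have hsh := hT.mono_right hT'
      have h1 : #(T'.powerset) ≤ #(𝒜.image (· ∩ T')) := by
        apply card_le_card
        intro t ht
        obtain ⟨u, hu, hut⟩ := hsh (mem_powerset.1 ht)
        exact mem_image.2 ⟨u, hu, by rw [inter_comm]; exact hut⟩
      rw [card_powerset, hc] at h1
      have h2 := card_trace_le R x T'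
      rw [← h𝒜] at h2
      have h3 := hpat (T'.image Prod.fst)
      have h4 : g #(T'.image Prod.fst) ≤ g (D + 1) := hg (hc ▸ card_image_le)
      omega) (by
      intro S hS S' hS' hne
      obtain ⟨b, hb, rfl⟩ := mem_image.1 hS
      obtain ⟨b', hb', rfl⟩ := mem_image.1 hS'
      exact (hsep b hb b' hb' (fun h => hne (by rw [h]))).trans (card_symmDiff_gr _ _))
      hk (by rw [Fintype.card_prod]; exact hs) (by rw [Fintype.card_prod]; exact h)
  rw [hcard] at hle
  have h2 := card_trace_le R x J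
  rw [← h𝒜] at h2
  have h3 := hpat (J.image Prod.fst)
  have h4 : g #(J.image Prod.fst) ≤ g s := hg (hJ ▸ card_image_le)
  omega

/-- A convenient form: with `N = |κ| |Λ|`, `#R ≤ 2 g (4 D N / k)`. -/
theorem packing_div (R : Finset ι) (x : ι → κ → Λ) (g : ℕ → ℕ) (hg : Monotone g)
    (hpat : ∀ J : Finset κ, #(pat R x J) ≤ g #J) (D : ℕ) (hD : g (D + 1) < 2 ^ (D + 1))
    (k : ℕ) (hk : 4 * D < k)
    (hsep : ∀ b ∈ R, ∀ b' ∈ R, b ≠ b' → k ≤ #{e | x b e ≠ x b' e})
    (hN : 0 < Fintype.card κ * Fintype.card Λ) :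
    #R ≤ 2 * g (4 * D * (Fintype.card κ * Fintype.card Λ) / k) := by
  set N := Fintype.card κ * Fintype.card Λ with hNdef
  have hk0 : 0 < k := by omega
  apply packing_fun R x g hg hpat D hD k hk0 hsep
  · rw [← hNdef]
    have : 4 * D * N / k < N := by
      rw [Nat.div_lt_iff_lt_mul hk0, mul_comm N k]
      exact Nat.mul_lt_mul_of_pos_right hk hN
    omega
  · rw [← hNdef]
    have := Nat.lt_div_mul_add (a := 4 * D * N) hk0
    rw [add_mul, one_mul]
    omega

end Pool.Agent.H456.Pack
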