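import Pool.Agent.H456.Pack.Edge

/-!
# Haussler's packing lemma

A family of sets with pairwise symmetric differences of size at least `k`, all of whose shattered
sets have at most `D` elements, has at most twice as many members as traces on some set of size
about `4 D n / k`.
-/

open Finset

namespace Pool.Agent.H456.Pack

variable {α : Type*} [DecidableEq α]

/-- The number of members with a given trace. -/
def wt (𝒜 : Finset (Finset α)) (J A : Finset α) : ℕ := #{S ∈ 𝒜 | S ∩ J = A}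

lemma sum_wt (𝒜 : Finset (Finset α)) (J : Finset α) :
    ∑ A ∈ J.powerset, wt 𝒜 J A = #𝒜 := by
  unfold wt
  exact (card_eq_sum_card_fiberwise fun S _ => mem_coe.2 (mem_powerset.2 inter_subset_right)).symm

/-- The sum over the directions of the smaller part of each class. -/
def hh (𝒜 : Finset (Finset α)) (J : Finset α) (e : α) : ℕ :=
  ∑ A ∈ J.powerset with e ∉ A, min (wt 𝒜 J A) (wt 𝒜 J (insert e A))

lemma sum_hh_le (𝒜 : Finset (Finset α)) (D : ℕ) (hD : ∀ T, 𝒜.Shatters T → #T ≤ D)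
    (J : Finset α) : ∑ e ∈ J, hh 𝒜 J e ≤ D * #𝒜 := by
  rw [← sum_wt 𝒜 J]
  apply sum_min_le
  intro τ T hT
  apply hD
  intro t ht
  obtain ⟨u, hu, hut⟩ := hT ht
  obtain ⟨v, hv, hTv⟩ := hT.exists_superset
  rw [mem_filter, mem_powerset] at hu hv
  have hpos : 0 < wt 𝒜 J u := lt_of_le_of_lt (Nat.zero_le _) hu.2
  obtain ⟨S, hS⟩ := card_pos.1 hpos
  rw [mem_filter] at hS
  refine ⟨S, hS.1, ?_⟩
  rw [← hut, ← hS.2]
  have hTJ : T ⊆ J := hTv.trans hv.1
  ext x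
  simp only [mem_inter]
  exact ⟨fun h => ⟨h.1, h.2, hTJ h.1⟩, fun h => ⟨h.1, h.2.1⟩⟩

/-- Lower bound for one class. -/
lemma class_bound [Fintype α] (T : Finset (Finset α)) (J : Finset α) (k : ℕ)
    (hJ : ∀ S ∈ T, ∀ S' ∈ T, S ∩ J = S' ∩ J)
    (hsep : ∀ S ∈ T, ∀ S' ∈ T, S ≠ S' → k ≤ #(symmDiff S S')) :
    k * (#T - 1) ≤ ∑ e ∈ Jᶜ, 2 * min (#{S ∈ T | e ∈ S}) (#{S ∈ T | e ∉ S}) := by
  rcases T.eq_empty_or_nonempty with rfl | hne
  · simp
  have hT : 0 < #T := card_pos.2 hne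
  have h1 : ∀ e ∈ Jᶜ, 2 * (#{S ∈ T | e ∈ S} * #{S ∈ T | e ∉ S}) =
      #{p ∈ T ×ˢ T | e ∈ symmDiff p.1 p.2} := by
    intro e _
    have : {p ∈ T ×ˢ T | e ∈ symmDiff p.1 p.2} =
        ({S ∈ T | e ∈ S} ×ˢ {S ∈ T | e ∉ S}) ∪ ({S ∈ T | e ∉ S} ×ˢ {S ∈ T | e ∈ S}) := by
      ext ⟨a, b⟩
      simp only [mem_filter, mem_product, mem_symmDiff, mem_union]
      tauto
    rw [this, card_union_of_disjoint, card_product, card_product]
    · ring
    · rw [disjoint_left]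
      rintro ⟨a, b⟩ h h'
      simp only [mem_filter, mem_product] at h h'
      tauto
  have h2 : ∑ e ∈ Jᶜ, #{p ∈ T ×ˢ T | e ∈ symmDiff p.1 p.2} =
      ∑ p ∈ T ×ˢ T, #(symmDiff p.1 p.2) := by
    simp_rw [card_filter]
    rw [sum_comm]
    apply sum_congr rfl
    rintro ⟨a, b⟩ hp
    rw [mem_product] at hp
    rw [← card_filter]
    congr 1
    ext x
    simp only [mem_filter, mem_compl, and_iff_right_iff_imp]
    intro hx hxJ
    have := hJ a hp.1 b hp.2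
    rw [mem_symmDiff] at hx
    rcases hx with h | h
    · have h' : x ∈ a ∩ J := mem_inter.2 ⟨h.1, hxJ⟩
      rw [this] at h'
      exact h.2 (mem_inter.1 h').1
    · have h' : x ∈ b ∩ J := mem_inter.2 ⟨h.1, hxJ⟩
      rw [← this] at h'
      exact h.2 (mem_inter.1 h').1
  have h3 : k * (#T * (#T - 1)) ≤ ∑ p ∈ T ×ˢ T, #(symmDiff p.1 p.2) := by
    have h4 : ∑ p ∈ T.offDiag, k ≤ ∑ p ∈ T ×ˢ T, #(symmDiff p.1 p.2) := by
      refine (sum_le_sum (fun p hp => ?_)).trans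
        (sum_le_sum_of_subset (fun p hp => mem_product.2
          ⟨(mem_offDiag.1 hp).1, (mem_offDiag.1 hp).2.1⟩))
      rw [mem_offDiag] at hp
      exact hsep p.1 hp.1 p.2 hp.2.1 hp.2.2
    rw [sum_const, offDiag_card, smul_eq_mul] at h4
    calc k * (#T * (#T - 1)) = (#T * #T - #T) * k := by
          rw [Nat.mul_sub_one, mul_comm]
      _ ≤ _ := h4
  have h5 : ∀ e ∈ Jᶜ, 2 * (#{S ∈ T | e ∈ S} * #{S ∈ T | e ∉ S}) ≤
      #T * (2 * min (#{S ∈ T | e ∈ S}) (#{S ∈ T | e ∉ S})) := by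
    intro e _
    have hc : #{S ∈ T | e ∈ S} + #{S ∈ T | e ∉ S} = #T := card_filter_add_card_filter_not _
    rcases le_total (#{S ∈ T | e ∈ S}) (#{S ∈ T | e ∉ S}) with h | h
    · rw [min_eq_left h]
      nlinarith [Nat.zero_le (#{S ∈ T | e ∈ S}), Nat.zero_le (#{S ∈ T | e ∉ S})]
    · rw [min_eq_right h]
      nlinarith [Nat.zero_le (#{S ∈ T | e ∈ S}), Nat.zero_le (#{S ∈ T | e ∉ S})]
  have h6 : #T * (k * (#T - 1)) ≤
      #T * ∑ e ∈ Jᶜ, 2 * min (#{S ∈ T | e ∈ S}) (#{S ∈ T | e ∉ S}) := by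
    calc #T * (k * (#T - 1)) = k * (#T * (#T - 1)) := by ring
      _ ≤ _ := h3
      _ = _ := h2.symm
      _ = ∑ e ∈ Jᶜ, 2 * (#{S ∈ T | e ∈ S} * #{S ∈ T | e ∉ S}) :=
          (sum_congr rfl h1).symm
      _ ≤ _ := sum_le_sum h5
      _ = _ := by rw [mul_sum]
  exact Nat.le_of_mul_le_mul_left h6 hT

lemma hh_insert (𝒜 : Finset (Finset α)) (J : Finset α) {e : α} (he : e ∉ J) :
    hh 𝒜 (insert e J) e = ∑ A ∈ J.powerset,
      min (#{S ∈ ({S ∈ 𝒜 | S ∩ J = A}) | e ∈ S}) (#{S ∈ ({S ∈ 𝒜 | S ∩ J = A}) | e ∉ S}) := by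
  unfold hh
  have h1 : {A ∈ (insert e J).powerset | e ∉ A} = J.powerset := by
    ext A
    simp only [mem_filter, mem_powerset]
    constructor
    · rintro ⟨h1, h2⟩
      exact (subset_insert_iff_of_notMem h2).1 h1
    · intro h
      exact ⟨h.trans (subset_insert _ _), fun h' => he (h h')⟩
  rw [h1]
  apply sum_congr rfl
  intro A hA
  rw [mem_powerset] at hA
  rw [min_comm]
  have heA : e ∉ A := fun h => he (hA h)
  congr 1
  · unfold wt
    congr 1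
    ext S
    simp only [mem_filter]
    constructor
    · rintro ⟨h1, h2⟩
      have heS : e ∈ S := by
        have : e ∈ S ∩ insert e J := h2 ▸ mem_insert_self _ _
        exact (mem_inter.1 this).1
      refine ⟨⟨h1, ?_⟩, heS⟩
      ext x
      have := Finset.ext_iff.1 h2 x
      simp only [mem_inter, mem_insert] at this ⊢
      by_cases hx : x = e
      · subst hx
        tauto
      · tauto
    · rintro ⟨⟨h1, h2⟩, h3⟩
      refine ⟨h1, ?_⟩
      rw [inter_insert_of_mem h3, h2]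
  · unfold wt
    congr 1
    ext S
    simp only [mem_filter]
    constructor
    · rintro ⟨h1, h2⟩
      have heS : e ∉ S := by
        intro h
        apply heA
        rw [← h2]
        exact mem_inter.2 ⟨h, mem_insert_self _ _⟩
      exact ⟨⟨h1, by rw [← inter_insert_of_notMem heS]; exact h2⟩, heS⟩
    · rintro ⟨⟨h1, h2⟩, h3⟩
      refine ⟨h1, ?_⟩
      rw [inter_insert_of_notMem h3, h2]

/-- Lower bound for a fixed set `J`. -/
lemma lower_bound [Fintype α] (𝒜 : Finset (Finset α)) (J : Finset α) (k : ℕ)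
    (hsep : ∀ S ∈ 𝒜, ∀ S' ∈ 𝒜, S ≠ S' → k ≤ #(symmDiff S S')) :
    k * (#𝒜 - #(𝒜.image (· ∩ J))) ≤ ∑ e ∈ Jᶜ, 2 * hh 𝒜 (insert e J) e := by
  have h1 : ∑ e ∈ Jᶜ, 2 * hh 𝒜 (insert e J) e = ∑ A ∈ J.powerset, ∑ e ∈ Jᶜ,
      2 * min (#{S ∈ ({S ∈ 𝒜 | S ∩ J = A}) | e ∈ S})
        (#{S ∈ ({S ∈ 𝒜 | S ∩ J = A}) | e ∉ S}) := by
    rw [sum_comm]
    apply sum_congr rfl
    intro e he
    rw [hh_insert 𝒜 J (mem_compl.1 he), mul_sum]
  rw [h1]
  have h2 : k * (#𝒜 - #(𝒜.image (· ∩ J))) ≤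
      ∑ A ∈ 𝒜.image (· ∩ J), k * (#{S ∈ 𝒜 | S ∩ J = A} - 1) := by
    rw [← mul_sum]
    apply Nat.mul_le_mul_left
    have h3 : #𝒜 = ∑ A ∈ 𝒜.image (· ∩ J), #{S ∈ 𝒜 | S ∩ J = A} :=
      card_eq_sum_card_image (· ∩ J) 𝒜
    have h4 : ∀ A ∈ 𝒜.image (· ∩ J), 1 ≤ #{S ∈ 𝒜 | S ∩ J = A} := by
      intro A hA
      obtain ⟨S, hS, rfl⟩ := mem_image.1 hA
      exact card_pos.2 ⟨S, mem_filter.2 ⟨hS, rfl⟩⟩
    rw [tsub_le_iff_right]
    calc #𝒜 = ∑ A ∈ 𝒜.image (· ∩ J), #{S ∈ 𝒜 | S ∩ J = A} := h3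
      _ = ∑ A ∈ 𝒜.image (· ∩ J), ((#{S ∈ 𝒜 | S ∩ J = A} - 1) + 1) := by
          apply sum_congr rfl
          intro A hA
          have := h4 A hA
          omega
      _ = _ := by rw [sum_add_distrib, sum_const, smul_eq_mul, mul_one]
      _ ≤ _ := le_rfl
  refine h2.trans ?_
  have hsub : 𝒜.image (· ∩ J) ⊆ J.powerset := by
    intro A hA
    obtain ⟨S, _, rfl⟩ := mem_image.1 hA
    exact mem_powerset.2 inter_subset_right
  refine (sum_le_sum fun A _ => ?_).trans (sum_le_sum_of_subset hsub)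
  apply class_bound
  · intro S hS S' hS'
    rw [(mem_filter.1 hS).2, (mem_filter.1 hS').2]
  · intro S hS S' hS' hne
    exact hsep S (mem_filter.1 hS).1 S' (mem_filter.1 hS').1 hne

/-- Double counting. -/
lemma double_count [Fintype α] (f : Finset α → α → ℕ) (s : ℕ) :
    ∑ J ∈ powersetCard s (univ : Finset α), ∑ e ∈ Jᶜ, f (insert e J) e =
      ∑ J ∈ powersetCard (s + 1) (univ : Finset α), ∑ e ∈ J, f J e := by
  rw [sum_sigma', sum_sigma']
  refine sum_bij' (fun p _ => ⟨insert p.2 p.1, p.2⟩) (fun p _ => ⟨p.1.erase p.2, p.2⟩)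
    ?_ ?_ ?_ ?_ ?_
  · rintro ⟨J, e⟩ h
    simp only [mem_sigma, mem_powersetCard_univ, mem_compl] at h ⊢
    exact ⟨by rw [card_insert_of_notMem h.2, h.1], mem_insert_self _ _⟩
  · rintro ⟨J, e⟩ h
    simp only [mem_sigma, mem_powersetCard_univ, mem_compl] at h ⊢
    refine ⟨?_, by simp⟩
    rw [card_erase_of_mem h.2, h.1]
    rfl
  · rintro ⟨J, e⟩ h
    simp only [mem_sigma, mem_powersetCard_univ, mem_compl] at h ⊢
    rw [erase_insert h.2]
  · rintro ⟨J, e⟩ h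
    simp only [mem_sigma, mem_powersetCard_univ, mem_compl] at h ⊢
    rw [insert_erase h.2]
  · rintro ⟨J, e⟩ h
    rfl

/-- **Haussler's packing lemma.** -/
theorem packing [Fintype α] (𝒜 : Finset (Finset α)) (D k s : ℕ)
    (hD : ∀ T, 𝒜.Shatters T → #T ≤ D)
    (hsep : ∀ S ∈ 𝒜, ∀ S' ∈ 𝒜, S ≠ S' → k ≤ #(symmDiff S S'))
    (hk : 0 < k) (hs : s + 1 ≤ Fintype.card α) (h : 4 * D * Fintype.card α ≤ (s + 1) * k) :
    ∃ J : Finset α, #J = s ∧ #𝒜 ≤ 2 * #(𝒜.image (· ∩ J)) := by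
  by_contra hno
  push Not at hno
  set n := Fintype.card α with hn
  set R := #𝒜 with hR
  have h1 : ∀ J ∈ powersetCard s (univ : Finset α), k * (R + 1) ≤
      ∑ e ∈ Jᶜ, 4 * hh 𝒜 (insert e J) e := by
    intro J hJ
    have hJc : #J = s := (mem_powersetCard.1 hJ).2
    have h2 := hno J hJc
    have h3 := lower_bound 𝒜 J k hsep
    have h4 : R + 1 ≤ 2 * (#𝒜 - #(𝒜.image (· ∩ J))) := by
      rw [← hR]
      omega
    calc k * (R + 1) ≤ k * (2 * (#𝒜 - #(𝒜.image (· ∩ J)))) := Nat.mul_le_mul_left _ h4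
      _ = 2 * (k * (#𝒜 - #(𝒜.image (· ∩ J)))) := by ring
      _ ≤ 2 * ∑ e ∈ Jᶜ, 2 * hh 𝒜 (insert e J) e := Nat.mul_le_mul_left _ h3
      _ = _ := by
          rw [mul_sum]
          apply sum_congr rfl
          intro e _
          ring
  have h2 := sum_le_sum h1
  rw [sum_const, card_powersetCard, card_univ, smul_eq_mul, ← hn] at h2
  have h3 : ∑ J ∈ powersetCard s (univ : Finset α), ∑ e ∈ Jᶜ, 4 * hh 𝒜 (insert e J) e =
      4 * ∑ J ∈ powersetCard (s + 1) (univ : Finset α), ∑ e ∈ J, hh 𝒜 J e := by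
    rw [double_count (fun J e => 4 * hh 𝒜 J e), mul_sum]
    apply sum_congr rfl
    intro J _
    rw [mul_sum]
  have h4 : ∑ J ∈ powersetCard (s + 1) (univ : Finset α), ∑ e ∈ J, hh 𝒜 J e ≤
      n.choose (s + 1) * (D * R) := by
    refine (sum_le_sum fun J _ => sum_hh_le 𝒜 D hD J).trans ?_
    rw [sum_const, card_powersetCard, card_univ, smul_eq_mul, ← hn, ← hR]
  rw [h3] at h2
  have h5 : n.choose s * (k * (R + 1)) ≤ 4 * (n.choose (s + 1) * (D * R)) :=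
    h2.trans (Nat.mul_le_mul_left _ h4)
  have h6 : n.choose (s + 1) * (s + 1) = n.choose s * (n - s) := Nat.choose_succ_right_eq n s
  have hch : 0 < n.choose s := Nat.choose_pos (by omega)
  have h7 : n.choose s * ((s + 1) * (k * (R + 1))) ≤ n.choose s * ((s + 1) * k * R) := by
    calc n.choose s * ((s + 1) * (k * (R + 1))) = (s + 1) * (n.choose s * (k * (R + 1))) := by ring
      _ ≤ (s + 1) * (4 * (n.choose (s + 1) * (D * R))) := Nat.mul_le_mul_left _ h5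
      _ = 4 * D * R * (n.choose (s + 1) * (s + 1)) := by ring
      _ = 4 * D * R * (n.choose s * (n - s)) := by rw [h6]
      _ ≤ 4 * D * R * (n.choose s * n) :=
          Nat.mul_le_mul_left _ (Nat.mul_le_mul_left _ (Nat.sub_le _ _))
      _ = n.choose s * (4 * D * n * R) := by ring
      _ ≤ n.choose s * ((s + 1) * k * R) :=
          Nat.mul_le_mul_left _ (Nat.mul_le_mul_right _ h)
  have h8 := Nat.le_of_mul_le_mul_left h7 hch
  have h9 : (s + 1) * k * R < (s + 1) * (k * (R + 1)) := by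
    have : 0 < (s + 1) * k := Nat.mul_pos (Nat.succ_pos _) hk
    nlinarith
  omega

end Pool.Agent.H456.Pack
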