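import Mathlib

/-!
# The number of edges of the one-inclusion graph of a set family

If every set shattered by a finite family `𝒢` has at most `D` elements, then the one-inclusion
graph of `𝒢` has at most `D * #𝒢` edges, also in a weighted form.
-/

open Finset

namespace Pool.Agent.H456.Pack

variable {α : Type*} [DecidableEq α]

/-- The number of pairs `A, insert e A` in the family with `e ∈ E`. -/
def Ed (E : Finset α) (𝒢 : Finset (Finset α)) : ℕ :=
  ∑ e ∈ E, #{A ∈ 𝒢 | e ∉ A ∧ insert e A ∈ 𝒢}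

lemma card_dir_inter (e : α) (𝒜 ℬ : Finset (Finset α)) :
    #{A ∈ 𝒜 | e ∉ A ∧ insert e A ∈ 𝒜} + #{A ∈ ℬ | e ∉ A ∧ insert e A ∈ ℬ} ≤
      #{A ∈ 𝒜 ∪ ℬ | e ∉ A ∧ insert e A ∈ 𝒜 ∪ ℬ} +
        #{A ∈ 𝒜 ∩ ℬ | e ∉ A ∧ insert e A ∈ 𝒜 ∩ ℬ} := by
  rw [← card_union_add_card_inter]
  apply Nat.add_le_add
  · apply card_le_card
    intro A hA
    simp only [mem_union, mem_filter] at hA ⊢
    tauto
  · apply card_le_card
    intro A hA
    simp only [mem_inter, mem_filter] at hA ⊢
    tauto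

lemma Ed_union_inter (E : Finset α) (𝒜 ℬ : Finset (Finset α)) :
    Ed E 𝒜 + Ed E ℬ ≤ Ed E (𝒜 ∪ ℬ) + Ed E (𝒜 ∩ ℬ) := by
  unfold Ed
  rw [← sum_add_distrib, ← sum_add_distrib]
  exact sum_le_sum fun e _ => card_dir_inter e 𝒜 ℬ

lemma Ed_insert {a : α} {E : Finset α} (ha : a ∉ E) (𝒢 : Finset (Finset α)) :
    Ed (insert a E) 𝒢 = #(𝒢.memberSubfamily a ∩ 𝒢.nonMemberSubfamily a) +
      (Ed E (𝒢.memberSubfamily a) + Ed E (𝒢.nonMemberSubfamily a)) := by
  unfold Ed
  rw [sum_insert ha]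
  congr 1
  · congr 1
    ext A
    simp only [mem_filter, mem_inter, mem_memberSubfamily, mem_nonMemberSubfamily]
    tauto
  · rw [← sum_add_distrib]
    apply sum_congr rfl
    intro e he
    have hea : e ≠ a := fun h => ha (h ▸ he)
    have h1 : #{A ∈ 𝒢.memberSubfamily a | e ∉ A ∧ insert e A ∈ 𝒢.memberSubfamily a} =
        #{A ∈ 𝒢 | (e ∉ A ∧ insert e A ∈ 𝒢) ∧ a ∈ A} := by
      refine card_bij' (fun A _ => insert a A) (fun A _ => A.erase a) ?_ ?_ ?_ ?_
      · intro A hA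
        simp only [mem_filter, mem_memberSubfamily, mem_insert, not_or] at hA ⊢
        refine ⟨hA.1.1, ⟨⟨hea, hA.2.1⟩, ?_⟩, Or.inl trivial⟩
        rw [insert_comm]
        exact hA.2.2.1
      · intro A hA
        simp only [mem_filter, mem_memberSubfamily, mem_erase, mem_insert] at hA ⊢
        refine ⟨⟨?_, by simp⟩, fun h => hA.2.1.1 h.2, ?_, ?_⟩
        · rw [insert_erase hA.2.2]
          exact hA.1
        · rw [insert_comm, insert_erase hA.2.2]
          exact hA.2.1.2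
        · rintro (h | h)
          · exact hea h.symm
          · exact h.1 rfl
      · intro A hA
        simp only [mem_filter, mem_memberSubfamily] at hA
        exact erase_insert hA.1.2
      · intro A hA
        simp only [mem_filter] at hA
        exact insert_erase hA.2.2
    have h2 : #{A ∈ 𝒢.nonMemberSubfamily a | e ∉ A ∧ insert e A ∈ 𝒢.nonMemberSubfamily a} =
        #{A ∈ 𝒢 | (e ∉ A ∧ insert e A ∈ 𝒢) ∧ a ∉ A} := by
      congr 1
      ext A
      simp only [mem_filter, mem_nonMemberSubfamily, mem_insert, not_or]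
      constructor
      · rintro ⟨⟨h1, h2⟩, h3, h4, h5⟩
        exact ⟨h1, ⟨h3, h4⟩, h2⟩
      · rintro ⟨h1, ⟨h3, h4⟩, h2⟩
        exact ⟨⟨h1, h2⟩, h3, h4, fun h => hea h.symm, h2⟩
    rw [h1, h2, ← filter_filter _ (fun A => a ∈ A), ← filter_filter _ (fun A => a ∉ A)]
    exact (card_filter_add_card_filter_not _).symm

/-- **The one-inclusion graph has few edges.** -/
theorem Ed_le (E : Finset α) : ∀ (𝒢 : Finset (Finset α)) (D : ℕ), (∀ A ∈ 𝒢, A ⊆ E) →
    (∀ T, 𝒢.Shatters T → #T ≤ D) → Ed E 𝒢 ≤ D * #𝒢 := by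
  induction E using Finset.induction_on with
  | empty =>
    intro 𝒢 D _ _
    simp [Ed]
  | insert a E ha ih =>
    intro 𝒢 D hsub hD
    set 𝒢₁ := 𝒢.memberSubfamily a with h𝒢₁
    set 𝒢₀ := 𝒢.nonMemberSubfamily a with h𝒢₀
    have hs1 : ∀ A ∈ 𝒢₁, A ⊆ E := by
      intro A hA
      rw [h𝒢₁, mem_memberSubfamily] at hA
      have h := hsub _ hA.1
      intro x hx
      have hx' := h (mem_insert_of_mem hx)
      rw [mem_insert] at hx'
      rcases hx' with h' | h'
      · exact absurd (h' ▸ hx) hA.2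
      · exact h'
    have hs0 : ∀ A ∈ 𝒢₀, A ⊆ E := by
      intro A hA
      rw [h𝒢₀, mem_nonMemberSubfamily] at hA
      have h := hsub _ hA.1
      intro x hx
      have hx' := h hx
      rw [mem_insert] at hx'
      rcases hx' with h' | h'
      · exact absurd (h' ▸ hx) hA.2
      · exact h'
    have hu : Ed E (𝒢₁ ∪ 𝒢₀) ≤ D * #(𝒢₁ ∪ 𝒢₀) := by
      apply ih
      · intro A hA
        rcases mem_union.1 hA with h | h
        · exact hs1 A h
        · exact hs0 A h
      · intro T hT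
        apply hD
        have haT : a ∉ T := by
          obtain ⟨u, hu, hTu⟩ := hT.exists_superset
          rcases mem_union.1 hu with h | h
          · intro h'
            exact ha (hs1 u h (hTu h'))
          · intro h'
            exact ha (hs0 u h (hTu h'))
        intro t ht
        obtain ⟨u, hu, rfl⟩ := hT ht
        rcases mem_union.1 hu with h | h
        · rw [h𝒢₁, mem_memberSubfamily] at h
          exact ⟨insert a u, h.1, inter_insert_of_notMem haT⟩
        · rw [h𝒢₀, mem_nonMemberSubfamily] at h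
          exact ⟨u, h.1, rfl⟩
    have hi : Ed E (𝒢₁ ∩ 𝒢₀) + #(𝒢₁ ∩ 𝒢₀) ≤ D * #(𝒢₁ ∩ 𝒢₀) := by
      have key : ∀ T, (𝒢₁ ∩ 𝒢₀).Shatters T → #T + 1 ≤ D := by
        intro T hT
        have haT : a ∉ T := by
          obtain ⟨u, hu, hTu⟩ := hT.exists_superset
          intro h'
          exact ha (hs1 u (mem_inter.1 hu).1 (hTu h'))
        rw [← card_insert_of_notMem haT]
        apply hD
        intro t ht
        rw [subset_insert_iff] at ht
        obtain ⟨u, hu, hut⟩ := hT ht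
        rw [mem_inter, h𝒢₁, h𝒢₀, mem_memberSubfamily, mem_nonMemberSubfamily] at hu
        by_cases hat : a ∈ t
        · refine ⟨insert a u, hu.1.1, ?_⟩
          rw [← insert_inter_distrib, hut, insert_erase hat]
        · refine ⟨u, hu.2.1, ?_⟩
          rw [insert_inter_of_notMem hu.2.2, hut, erase_eq_of_notMem hat]
      rcases (𝒢₁ ∩ 𝒢₀).eq_empty_or_nonempty with he | hne
      · rw [he]
        simp [Ed]
      · have h0 := key ∅ (shatters_empty.2 hne)
        obtain ⟨D', rfl⟩ : ∃ D', D = D' + 1 := ⟨D - 1, by simp at h0; omega⟩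
        have := ih (𝒢₁ ∩ 𝒢₀) D' (fun A hA => hs1 A (mem_inter.1 hA).1)
          (fun T hT => by have := key T hT; omega)
        rw [add_mul, one_mul]
        omega
    have hEi : Ed (insert a E) 𝒢 = #(𝒢₁ ∩ 𝒢₀) + (Ed E 𝒢₁ + Ed E 𝒢₀) := Ed_insert ha 𝒢
    have hui := Ed_union_inter E 𝒢₁ 𝒢₀
    have hc : #𝒢₁ + #𝒢₀ = #𝒢 := card_memberSubfamily_add_card_nonMemberSubfamily a 𝒢
    have hc' : #(𝒢₁ ∪ 𝒢₀) + #(𝒢₁ ∩ 𝒢₀) = #𝒢₁ + #𝒢₀ := card_union_add_card_inter _ _
    rw [hEi, ← hc, ← hc', mul_add]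
    omega

/-- Weighted version. -/
theorem sum_min_le (E : Finset α) (w : Finset α → ℕ) (D : ℕ)
    (hD : ∀ τ, ∀ T, ({A ∈ E.powerset | τ < w A}).Shatters T → #T ≤ D) :
    ∑ e ∈ E, ∑ A ∈ E.powerset with e ∉ A, min (w A) (w (insert e A)) ≤
      D * ∑ A ∈ E.powerset, w A := by
  set M := ∑ A ∈ E.powerset, w A with hM
  have hwM : ∀ A ∈ E.powerset, w A ≤ M := fun A hA =>
    single_le_sum (f := w) (fun _ _ => Nat.zero_le _) hA
  have hlayer : ∀ A ∈ E.powerset, w A = ∑ τ ∈ range M, if τ < w A then 1 else 0 := by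
    intro A hA
    rw [← card_filter]
    have : {τ ∈ range M | τ < w A} = range (w A) := by
      ext τ
      simp only [mem_filter, mem_range]
      exact ⟨fun h => h.2, fun h => ⟨lt_of_lt_of_le h (hwM A hA), h⟩⟩
    rw [this, card_range]
  have h1 : ∀ e ∈ E, ∑ A ∈ E.powerset with e ∉ A, min (w A) (w (insert e A)) =
      ∑ τ ∈ range M, #{A ∈ ({A ∈ E.powerset | τ < w A}) | e ∉ A ∧
        insert e A ∈ ({A ∈ E.powerset | τ < w A})} := by
    intro e he
    have h2 : ∀ A ∈ {A ∈ E.powerset | e ∉ A}, min (w A) (w (insert e A)) =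
        ∑ τ ∈ range M, if (τ < w A ∧ τ < w (insert e A)) then 1 else 0 := by
      intro A hA
      rw [← card_filter]
      have hA' := (mem_filter.1 hA).1
      have : {τ ∈ range M | τ < w A ∧ τ < w (insert e A)} =
          range (min (w A) (w (insert e A))) := by
        ext τ
        simp only [mem_filter, mem_range, lt_min_iff]
        exact ⟨fun h => h.2, fun h => ⟨lt_of_lt_of_le h.1 (hwM A hA'), h⟩⟩
      rw [this, card_range]
    rw [sum_congr rfl h2, sum_comm]
    apply sum_congr rfl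
    intro τ _
    rw [← card_filter]
    congr 1
    ext A
    simp only [mem_filter, mem_powerset]
    constructor
    · rintro ⟨⟨hA, heA⟩, h1, h2⟩
      exact ⟨⟨hA, h1⟩, heA, insert_subset he hA, h2⟩
    · rintro ⟨⟨hA, h1⟩, heA, _, h2⟩
      exact ⟨⟨hA, heA⟩, h1, h2⟩
  rw [sum_congr rfl h1, sum_comm]
  have h3 : ∀ τ ∈ range M, (∑ e ∈ E, #{A ∈ ({A ∈ E.powerset | τ < w A}) | e ∉ A ∧
        insert e A ∈ ({A ∈ E.powerset | τ < w A})}) ≤ D * #{A ∈ E.powerset | τ < w A} := by
    intro τ _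
    exact Ed_le E _ D (fun A hA => mem_powerset.1 (mem_filter.1 hA).1) (hD τ)
  refine (sum_le_sum h3).trans ?_
  rw [← mul_sum]
  apply Nat.mul_le_mul_left
  have h4 : ∑ τ ∈ range M, #{A ∈ E.powerset | τ < w A} =
      ∑ A ∈ E.powerset, ∑ τ ∈ range M, if τ < w A then 1 else 0 := by
    rw [sum_comm]
    apply sum_congr rfl
    intro τ _
    rw [card_filter]
  rw [h4, hM]
  exact le_of_eq (sum_congr rfl fun A hA => (hlayer A hA).symm)

end Pool.Agent.H456.Pack
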